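import Pool.Agent.R228.MM.Main
import Pool.Agent.R228.MM.Akt
import Pool.Agent.R228.MM.Gain
import Pool.Agent.R228.MM.Prob
import Pool.Agent.R228.MM.Kol
import Pool.Agent.R228.MM.Sym
import Pool.Agent.R228.MM.Mom
import Pool.Agent.R228.MM.Meas
import Pool.Agent.R228.MM.Geo1
import Pool.Agent.R228.MM.Geo2
import Pool.Agent.R228.MM.Lip
import Pool.Agent.R228.MM.Re
import Pool.Agent.R228.MM.HH
import Pool.Agent.R228.MM.Supp
import Pool.Agent.R228.MM.Cnt
import Pool.Agent.R228.MM.Arr
import Pool.Agent.R228.MM.Det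
import Pool.Agent.R228.MM.Diam
import Pool.Agent.R228.MM.Inv
import Pool.Agent.R228.MM.Fin

/-!
# MP_47e84d_pr: critical multicolour Poisson matchings in the plane

No translation-invariant `V`-matching scheme in the critical case in the plane has a tail
`ℙ*(X > r) < C/(r log r)` for large `r`. Indeed `𝔼*[min(X, R)] ≥ c √(log R)` with a constant which
depends only on the intensities and the family types.
-/

universe u

namespace Pool.Agent.Results.MP_47e84d_pr.NoLogTail

open MeasureTheory ProbabilityTheory Filter Set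
open Pool.Agent.R228.MM
open scoped ENNReal Topology

/-- Let `lam` be intensities of independent planar Poisson processes, `V` a finite set of family
types, and `lam ∈ ∂ cone(V)`. There are `c > 0`, `R₀` such that every translation-invariant
`V`-matching scheme satisfies `∫_0^R ℙ*(X > r) dr ≥ c √(log R)` for `R ≥ R₀`,
`ℙ*(X > r) ≥ c / (r √(log r))` for arbitrarily large `r`, and, for every `C`,
`ℙ*(X > r) ≥ C / (r log r)` for arbitrarily large `r`. -/
theorem result {q : ℕ} (lam : Fin q → ℝ) (hlam : ∀ i, 0 < lam i) (V : Finset (Fin q → ℕ))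
    (hcrit : lam ∈ frontier (coneV V)) :
    ∃ c R0 : ℝ, 0 < c ∧ ∀ (Ω : Type u) [MeasurableSpace Ω] (P : Measure Ω)
      [IsProbabilityMeasure P] (Pi : Fin q → Ω → Set Pt) (M : Ω → Set (Finset Pt)),
      IsPoisson P lam Pi → IsScheme P V Pi M →
      (∀ R : ℝ, R0 ≤ R →
        ENNReal.ofReal (c * √(Real.log R)) ≤ ∫⁻ r in Set.Ioc 0 R, palmTail P lam Pi M r) ∧
      (∃ᶠ r in atTop, ENNReal.ofReal (c / (r * √(Real.log r))) ≤ palmTail P lam Pi M r) ∧
      (∀ C : ℝ, ∃ᶠ r in atTop,
        ENNReal.ofReal (C / (r * Real.log r)) ≤ palmTail P lam Pi M r) := by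
  have hP : S_PROB.{u} := prob kol sym geo1 mom meas
  have hG : S_GAIN.{u} := gain hP mom geo1 geo2 meas
  exact main_of (akt hG re) (lip geo1) hhs supp cnt (arrs cell_meas cell_vol) det
    (inv diam_meas cell_meas) fin cell_meas lam hlam V hcrit

end Pool.Agent.Results.MP_47e84d_pr.NoLogTail
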